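import Pool.Agent.Q75.WT.Row

/-!
# MP_188a10: how many choices of residue classes are bad, and the threshold

Fix a set `T` of moduli and a block `R < d ≤ 2R`. A choice `c` picks one reduced class modulo every
`d ∈ T` of the block; `F(c)` is the sum of `κ^ν(d)` times the maximal error (over `y ≤ N`) in the
chosen classes, and `Bad κ T N R U` is the proportion of the choices with `F(c) > N / (log N)^U`.

(1), (2) Unconditionally the proportion is at most `exp(-R / (log N)^(U-2+ε))` without weights, and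
`exp(-R / (log N)^((1+ε)U+C))` with weights, for all `R ≤ N^α`, `α < 1`, uniformly in `T`.

(3) Exchange: one choice with a large sum gives many choices with a slightly smaller sum.

(4) The saving `F(c) ≤ N / (log N)^A` for all choices and all `R ≤ N^α` is equivalent to the bound
`exp(-2R / (log N)^(U-A-1))` for the proportion, for one single `U ≥ A`.

(5) Hence (no weights) either every power of `log N` is saved, or the unconditional exponent is sharp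
up to an additive constant for all `U` at once.

(6), (7) The same for the sum `S_{α,C₁}` of the problem.
-/

set_option autoImplicit false

namespace Pool.Agent.Results.MP_188a10_nt.CountingThreshold

open Finset
open Pool.Agent.Results.MP_188a10_nt.WeightedExceptional (EMax nuD)

/-! ### Choices of classes -/

open scoped Classical in
/-- the `k` for which the modulus `k + 1 ∈ (R, 2R]` belongs to `T` -/
noncomputable def Blk (T : Set ℕ) (R : ℕ) : Finset ℕ :=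
  (Ico R (2 * R)).filter (fun k => k + 1 ∈ T)

/-- one reduced class for every modulus in `T`, `R < d ≤ 2R` -/
abbrev Choice (T : Set ℕ) (R : ℕ) : Type := ∀ k : Blk T R, (ZMod ((k : ℕ) + 1))ˣ

/-- the weighted sum of the maximal errors in the chosen classes -/
noncomputable def F (κ : ℝ) (T : Set ℕ) (N R : ℕ) (c : Choice T R) : ℝ :=
  ∑ k : Blk T R, κ ^ nuD ((k : ℕ) + 1) * EMax N ((k : ℕ) + 1) (c k)

open scoped Classical in
/-- the proportion of the choices with `F > N / (log N)^U` -/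
noncomputable def Bad (κ : ℝ) (T : Set ℕ) (N R : ℕ) (U : ℝ) : ℝ :=
  (Fintype.card {c : Choice T R // N / Real.log N ^ U < F κ T N R c} : ℝ) /
    Fintype.card (Choice T R)

/-- `(log N)^A` is saved for all choices, for all large `N` and all `R ≤ N^α` -/
def Saves (κ : ℝ) (T : Set ℕ) (α A : ℝ) : Prop := ∃ N₀ : ℕ, ∀ N : ℕ, N₀ ≤ N → ∀ R : ℕ, 1 ≤ R →
  (R : ℝ) ≤ (N : ℝ) ^ α → ∀ c : Choice T R, F κ T N R c ≤ N / Real.log N ^ A

/-- for all large `N` and `N^β ≤ R ≤ N^α` less than `exp(-2R / (log N)^V)` of the choices are bad -/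
def Few (κ : ℝ) (T : Set ℕ) (β α V U : ℝ) : Prop := ∃ N₀ : ℕ, ∀ N : ℕ, N₀ ≤ N → ∀ R : ℕ,
  (N : ℝ) ^ β ≤ R → (R : ℝ) ≤ (N : ℝ) ^ α →
    Bad κ T N R U < Real.exp (-(2 * ((R : ℝ) / Real.log N ^ V)))

/-! ### The sum of the problem -/

/-- `E(N, d)`: the maximum of `|π(y; d, l) - li(y)/φ(d)|` over `2 ≤ y ≤ N` and the reduced classes -/
noncomputable def E (N d : ℕ) : ℝ := ⨆ l : (ZMod d)ˣ, EMax N d l

/-- `S_{α,C₁}(N)` -/
noncomputable def S (α C₁ : ℝ) (N : ℕ) : ℝ :=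
  ∑ d ∈ (Icc 1 N).filter (fun d : ℕ => (d : ℝ) < (N : ℝ) ^ α / Real.log N ^ C₁ ∧ Squarefree d),
    (3 : ℝ) ^ nuD d * E N d

/-- the bound `S_{α,C₁}(N) = O(N / (log N)^a)` for some `C₁` -/
def Adm (α : ℝ) (a : ℕ) : Prop := ∃ C₁ : ℝ, 0 < C₁ ∧ ∃ K : ℝ, ∀ N : ℕ, 3 ≤ N →
  S α C₁ N ≤ K * (N / Real.log N ^ a)

/-- `α` is admissible -/
def Admissible (α : ℝ) : Prop := Adm α 3

/-- Q1 with `log^3` replaced by every power -/
def Q1All : Prop := ∀ α : ℝ, 1 / 2 < α → α < 1 → ∀ a : ℕ, Adm α a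

/-- the squarefree moduli -/
def Sq : Set ℕ := {d | Squarefree d}

theorem all_iff (κ β : ℝ) (hκ : 1 ≤ κ) (hβ0 : 0 < β) (hβ : β < 1 / 2) :
    Q1All ↔ ∀ α : ℝ, 1 / 2 < α → α < 1 → ∀ K : ℝ, ∃ U : ℝ, K ≤ U ∧ Few κ Sq β α (U - K) U := by
  have hlev : Q1All ↔ ∀ α : ℝ, 1 / 2 < α → α < 1 → ∀ A : ℝ, Saves κ Sq α A := by
    constructor
    · intro h α h1 h2
      have h3 : ∀ A : ℝ, Pool.Agent.Q75.WT.Lev 3 Sq α A := by
        intro A
        obtain ⟨a, ha⟩ := exists_nat_gt A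
        obtain ⟨C₁, -, K, hK⟩ := h ((1 + α) / 2) (by linarith) (by linarith) a
        exact Pool.Agent.Q75.WT.lev_of_S ((1 + α) / 2) C₁ K A a hK α (by linarith) h2 ha
      intro A
      exact Pool.Agent.Q75.WT.lev_weights κ hκ Sq α h2
        (fun A => Pool.Agent.Q75.WT.lev_mono 1 3 le_rfl (by norm_num) Sq α A (h3 A)) A
    · intro h α h1 h2 a
      refine ⟨1, one_pos, ?_⟩
      refine Pool.Agent.Q75.WT.S_of_lev α a ?_ 1 one_pos
      exact Pool.Agent.Q75.WT.lev_weights 3 (by norm_num) Sq α h2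
        (fun A => Pool.Agent.Q75.WT.lev_mono 1 κ le_rfl hκ Sq α A (h α h1 h2 A)) (a + 1)
  rw [hlev]
  constructor
  · intro h α h1 h2 K
    obtain ⟨U, hU, N₀, hT⟩ := (Pool.Agent.Q75.WT.lev_iff κ hκ Sq β α K hβ0 hβ h2).1
      (h α h1 h2 K)
    refine ⟨U, hU, N₀ + 3, fun N hN R hR1 hR2 => (hT N (by omega) R hR1 hR2).trans_le ?_⟩
    have hl := Pool.Agent.Results.MP_188a10_nt.WeightedExceptional.log_ge_one (x := N) (by omega)
    have hl0 : 0 < Real.log N := by linarith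
    apply Real.exp_le_exp.2
    have h3 : Real.log N ^ (U - K - 1) ≤ Real.log N ^ (U - K) :=
      Real.rpow_le_rpow_of_exponent_le hl (by linarith)
    have h4 : (R : ℝ) / Real.log N ^ (U - K) ≤ (R : ℝ) / Real.log N ^ (U - K - 1) := by gcongr
    linarith
  · intro h α h1 h2 A
    obtain ⟨U, hU, hT⟩ := h α h1 h2 (A + 1)
    refine (Pool.Agent.Q75.WT.lev_iff κ hκ Sq β α A hβ0 hβ h2).2 ⟨U, by linarith, ?_⟩
    have e : U - A - 1 = U - (A + 1) := by ring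
    rw [e]
    exact hT

theorem result :
    -- (1) unconditional upper bound without weights
    (∀ α U ε : ℝ, α < 1 → 0 < ε → ∃ N₀ : ℕ, ∀ N : ℕ, N₀ ≤ N → ∀ R : ℕ, 1 ≤ R →
      (R : ℝ) ≤ (N : ℝ) ^ α → ∀ T : Set ℕ,
        Bad 1 T N R U ≤ Real.exp (-((R : ℝ) / Real.log N ^ (U - 2 + ε)))) ∧
    -- (2) unconditional upper bound with weights
    (∀ κ ε : ℝ, 1 ≤ κ → 0 < ε → ∃ C : ℝ, ∀ α U : ℝ, α < 1 → 0 ≤ U → ∃ N₀ : ℕ, ∀ N : ℕ, N₀ ≤ N →
      ∀ R : ℕ, 1 ≤ R → (R : ℝ) ≤ (N : ℝ) ^ α → ∀ T : Set ℕ,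
        Bad κ T N R U ≤ Real.exp (-((R : ℝ) / Real.log N ^ ((1 + ε) * U + C)))) ∧
    -- (3) exchange
    (∀ κ : ℝ, 0 ≤ κ → ∀ (T : Set ℕ) (N R : ℕ) (c₀ : Choice T R) (k : ℕ), k ≤ (Blk T R).card →
      Nat.card (Choice T R) ≤ (2 * R) ^ k *
        Nat.card {c : Choice T R // (k : ℝ) * F κ T N R c₀ ≤ (Blk T R).card * F κ T N R c}) ∧
    -- (4) the threshold
    (∀ (κ : ℝ) (T : Set ℕ) (β α A : ℝ), 1 ≤ κ → 0 < β → β < 1 / 2 → α < 1 →
      (Saves κ T α A ↔ ∃ U : ℝ, A ≤ U ∧ Few κ T β α (U - A - 1) U)) ∧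
    -- (5) dichotomy
    (∀ (T : Set ℕ) (β α : ℝ), 0 < β → β < 1 / 2 → α < 1 → (∀ A : ℝ, Saves 1 T α A) ∨
      ∃ A : ℝ, ∀ U : ℝ, A ≤ U → ∀ ε : ℝ, 0 < ε → ∀ N₀ : ℕ, ∃ N : ℕ, N₀ ≤ N ∧ ∃ R : ℕ,
        (N : ℝ) ^ β ≤ R ∧ (R : ℝ) ≤ (N : ℝ) ^ α ∧
        Real.exp (-(2 * ((R : ℝ) / Real.log N ^ (U - A - 1)))) ≤ Bad 1 T N R U ∧
        Bad 1 T N R U ≤ Real.exp (-((R : ℝ) / Real.log N ^ (U - 2 + ε)))) ∧
    -- (6) admissibility
    (∀ α β : ℝ, α < 1 → 0 < β → β < 1 / 2 →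
      ((∃ U : ℝ, 4 ≤ U ∧ Few 3 Sq β α (U - 5) U) → Admissible α) ∧
      (Admissible α → ∀ α' A : ℝ, α' < α → A < 3 → ∃ U : ℝ, A ≤ U ∧
        Few 3 Sq β α' (U - A - 1) U)) ∧
    -- (7) all powers of the logarithm
    (∀ κ β : ℝ, 1 ≤ κ → 0 < β → β < 1 / 2 →
      (Q1All ↔ ∀ α : ℝ, 1 / 2 < α → α < 1 → ∀ K : ℝ, ∃ U : ℝ, K ≤ U ∧
        Few κ Sq β α (U - K) U)) := by
  have h1 : ∀ α U ε : ℝ, α < 1 → 0 < ε → ∃ N₀ : ℕ, ∀ N : ℕ, N₀ ≤ N → ∀ R : ℕ, 1 ≤ R →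
      (R : ℝ) ≤ (N : ℝ) ^ α → ∀ T : Set ℕ,
        Bad 1 T N R U ≤ Real.exp (-((R : ℝ) / Real.log N ^ (U - 2 + ε))) := by
    intro α U ε hα hε
    obtain ⟨N₀, h⟩ := Pool.Agent.Q75.WT.upper_of 1 α U (U - 1 + ε / 2) (ε / 2) le_rfl hα
      (by linarith) (Pool.Agent.Q75.WT.needs_one α U (ε / 2) hα (by linarith))
    refine ⟨N₀, fun N hN R hR hRN T => ?_⟩
    have h' := h N hN R hR hRN T
    have e : U - 1 + ε / 2 - 1 + ε / 2 = U - 2 + ε := by ring
    rw [e] at h'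
    exact h'
  refine ⟨h1, ?_, ?_, ?_, ?_, ?_, fun κ β hκ hβ0 hβ => all_iff κ β hκ hβ0 hβ⟩
  · intro κ ε hκ hε
    obtain ⟨n, hn⟩ := exists_nat_gt (1 / ε)
    have hn0 : (0 : ℝ) < n := lt_trans (by positivity) hn
    have hn1 : 1 ≤ n := by exact_mod_cast hn0
    obtain ⟨c, hc0, hc⟩ := Pool.Agent.Q75.WT.needs_wt κ hκ n hn1
    refine ⟨c, fun α U hα hU => ?_⟩
    obtain ⟨N₀, h⟩ := Pool.Agent.Q75.WT.upper_of κ α U _ 1 hκ hα one_pos (hc α U hα)
    refine ⟨N₀ + 3, fun N hN R hR hRN T => ?_⟩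
    have h' := h N (by omega) R hR hRN T
    refine h'.trans (Real.exp_le_exp.2 ?_)
    have hl := Pool.Agent.Results.MP_188a10_nt.WeightedExceptional.log_ge_one (x := N) (by omega)
    have hl0 : 0 < Real.log N := by linarith
    have hnε : 1 / (n : ℝ) ≤ ε := by
      rw [div_le_iff₀ hn0]
      rw [div_lt_iff₀ hε] at hn
      linarith
    have h3 : Real.log N ^ ((1 + 1 / (n : ℝ)) * U + c - 1 + 1) ≤
        Real.log N ^ ((1 + ε) * U + c) := by
      apply Real.rpow_le_rpow_of_exponent_le hl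
      have : 1 / (n : ℝ) * U ≤ ε * U := mul_le_mul_of_nonneg_right hnε hU
      linarith
    have h4 : (R : ℝ) / Real.log N ^ ((1 + ε) * U + c) ≤
        (R : ℝ) / Real.log N ^ ((1 + 1 / (n : ℝ)) * U + c - 1 + 1) := by gcongr
    linarith
  · intro κ hκ T N R c₀ k hk
    classical
    rw [Nat.card_eq_fintype_card, Nat.card_eq_fintype_card]
    have h := Pool.Agent.Q75.WT.exchange κ hκ T N R c₀ k hk
    refine h.trans (Nat.mul_le_mul_left _ (le_of_eq ?_))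
    exact Fintype.card_congr (Equiv.refl _)
  · intro κ T β α A hκ hβ0 hβ hα
    exact Pool.Agent.Q75.WT.lev_iff κ hκ T β α A hβ0 hβ hα
  · intro T β α hβ0 hβ hα
    by_cases hall : ∀ A : ℝ, Saves 1 T α A
    · exact Or.inl hall
    · right
      push Not at hall
      obtain ⟨A, hA⟩ := hall
      refine ⟨A, fun U hU ε hε N₀ => ?_⟩
      obtain ⟨N₁, h1'⟩ := h1 α U ε hα hε
      have hnot : ¬ Few 1 T β α (U - A - 1) U := fun hF =>
        hA ((Pool.Agent.Q75.WT.lev_iff 1 le_rfl T β α A hβ0 hβ hα).2 ⟨U, hU, hF⟩)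
      unfold Few at hnot
      push Not at hnot
      obtain ⟨N, hN, R, hR1, hR2, hlow⟩ := hnot (N₀ + N₁ + 1)
      have hN0 : (0 : ℝ) < N := by exact_mod_cast (by omega : 0 < N)
      have hR : 1 ≤ R := by
        have : (0 : ℝ) < R := lt_of_lt_of_le (by positivity) hR1
        exact_mod_cast this
      exact ⟨N, by omega, R, hR1, hR2, hlow, h1' N (by omega) R hR hR2 T⟩
  · intro α β hα hβ0 hβ
    constructor
    · rintro ⟨U, hU, hF⟩
      have h3 : Pool.Agent.Q75.WT.Lev 3 Sq α 4 := by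
        refine (Pool.Agent.Q75.WT.lev_iff 3 (by norm_num) Sq β α 4 hβ0 hβ hα).2 ⟨U, hU, ?_⟩
        have e : U - 4 - 1 = U - 5 := by ring
        rw [e]
        exact hF
      refine ⟨1, one_pos, Pool.Agent.Q75.WT.S_of_lev α 3 ?_ 1 one_pos⟩
      have e : ((3 : ℕ) : ℝ) + 1 = 4 := by norm_num
      rw [e]
      exact h3
    · rintro ⟨C₁, -, K, hK⟩ α' A hα' hA
      exact (Pool.Agent.Q75.WT.lev_iff 3 (by norm_num) Sq β α' A hβ0 hβ (by linarith)).1
        (Pool.Agent.Q75.WT.lev_of_S α C₁ K A 3 hK α' hα' (by linarith) (by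
          push_cast
          exact hA))

end Pool.Agent.Results.MP_188a10_nt.CountingThreshold
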