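import Pool.Agent.Q93.WL.AS

/-!
# MP_188a10: the weighted level of distribution along fixed residue systems

In `S_{α,C₁}(N)` the worst class modulo `d` may depend on `N`. We compare the bound `(∗)_α` with the
same bound along residue systems `c` which do not depend on `N` (one reduced class `c(d)` for every
modulus; the maximum over `y ≤ N` and the weights `3^ν(d)` are kept). The residue systems form the
compact group `∏ (ℤ/d)ˣ`.

(1) `α` is admissible if and only if it is admissible along every residue system (the constants `C₁`,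
`K` may depend on the system), if and only if this holds for a set of systems which is not meagre.
So Q1 is decided by one generic residue system. The same holds for arbitrary finite sets of moduli,
weights `κ^ν(d)`, powers of the logarithm, and for classes restricted to arbitrary nonempty sets.

(2) In contrast, for every probability measure with uniform marginals (no independence is assumed),
almost every residue system has weighted level of distribution `1`, up to powers of `log N`, with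
every weight `κ^ν(d)` and saving of every power of `log N`; in particular every `α < 1` is admissible
along almost every system. If two independent copies of the random system coincide modulo at most
`K n^β (log n)^D` of the moduli up to `n` on average, the level is `N^(1/(1+β))`; `β = 1` (no
randomness) is Bombieri's `1/2`.
-/

set_option autoImplicit false

namespace Pool.Agent.Results.MP_188a10_nt.FixedSystems

open Finset MeasureTheory
open Pool.Agent.Results.MP_188a10_nt.WeightedExceptional (EMax nuD)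

/-- `E(N, d)`: the maximum of `|π(y; d, l) - li(y)/φ(d)|` over `2 ≤ y ≤ N` and the reduced classes -/
noncomputable def E (N d : ℕ) : ℝ := ⨆ l : (ZMod d)ˣ, EMax N d l

/-- `S_{α,C₁}(N)` -/
noncomputable def S (α C₁ : ℝ) (N : ℕ) : ℝ :=
  ∑ d ∈ (Icc 1 N).filter (fun d : ℕ => (d : ℝ) < (N : ℝ) ^ α / Real.log N ^ C₁ ∧ Squarefree d),
    (3 : ℝ) ^ nuD d * E N d

/-- `α` is admissible -/
def Admissible (α : ℝ) : Prop := ∃ C₁ : ℝ, 0 < C₁ ∧ ∃ K : ℝ, ∀ N : ℕ, 3 ≤ N →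
  S α C₁ N ≤ K * (N / Real.log N ^ 3)

/-- Q1 -/
def Q1 : Prop := ∀ α : ℝ, 1 / 2 < α → α < 1 → Admissible α

/-- the sum along a residue system; `c k` is the class modulo `k + 1` -/
noncomputable def SAlong (α C₁ : ℝ) (N : ℕ) (c : ∀ k : ℕ, (ZMod (k + 1))ˣ) : ℝ :=
  ∑ k ∈ (range N).filter (fun k : ℕ => ((k + 1 : ℕ) : ℝ) < (N : ℝ) ^ α / Real.log N ^ C₁ ∧
    Squarefree (k + 1)), (3 : ℝ) ^ nuD (k + 1) * EMax N (k + 1) (c k)

/-- `α` is admissible along the residue system `c` -/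
def AdmissibleAlong (α : ℝ) (c : ∀ k : ℕ, (ZMod (k + 1))ˣ) : Prop :=
  ∃ C₁ : ℝ, 0 < C₁ ∧ ∃ K : ℝ, ∀ N : ℕ, 3 ≤ N → SAlong α C₁ N c ≤ K * (N / Real.log N ^ 3)

section Restricted

variable (R : ∀ k : ℕ, Set (ZMod (k + 1))ˣ) (κ : ℝ) (T : ℕ → Finset ℕ) (U : ℕ)

/-- the moduli `k + 1`, `k ∈ T N`, weights `κ^ν`, the maximum over the classes in `R k` -/
def MaxBound : Prop := ∃ C : ℝ, ∀ N : ℕ, 3 ≤ N →
  ∑ k ∈ T N, κ ^ nuD (k + 1) * (⨆ a : R k, EMax N (k + 1) (a : (ZMod (k + 1))ˣ)) ≤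
    C * (N / Real.log N ^ U)

/-- the same along a fixed system of classes in the sets `R k` -/
def SysBound (c : ∀ k : ℕ, R k) : Prop := ∃ C : ℝ, ∀ N : ℕ, 3 ≤ N →
  ∑ k ∈ T N, κ ^ nuD (k + 1) * EMax N (k + 1) ((c k : (ZMod (k + 1))ˣ)) ≤
    C * (N / Real.log N ^ U)

end Restricted

section Random

variable {Ω : Type} [MeasurableSpace Ω] (μ : Measure Ω) (c : ∀ k : ℕ, Ω → (ZMod (k + 1))ˣ)

/-- all marginals are uniform -/
def Uniform : Prop :=
  ∀ (k : ℕ) (a : (ZMod (k + 1))ˣ), μ.real {ω | c k ω = a} = 1 / (Nat.totient (k + 1) : ℝ)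

/-- the expected number of the moduli up to `n` modulo which two independent copies of the random
system coincide is at most `K n ^ β (log (n + 2)) ^ D` -/
def Collisions (β K : ℝ) (D : ℕ) : Prop :=
  ∀ n : ℕ, ∑ k ∈ range n, ∑ a : (ZMod (k + 1))ˣ, μ.real {ω | c k ω = a} ^ 2 ≤
    K * (n : ℝ) ^ β * Real.log (n + 2) ^ D

/-- almost surely, for all large `N` and all `n` with `n ^ (1 + β) (log N) ^ B ≤ N`: the weighted sum
over the moduli up to `n` is at most `N / (log N) ^ U` -/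
def AlmostSure (κ β : ℝ) (B U : ℕ) : Prop :=
  ∀ᵐ ω ∂μ, ∃ N₀ : ℕ, ∀ N : ℕ, N₀ ≤ N → ∀ n : ℕ, (n : ℝ) ^ (1 + β) * Real.log N ^ B ≤ N →
    ∑ k ∈ range n, κ ^ nuD (k + 1) * EMax N (k + 1) (c k ω) ≤ N / Real.log N ^ U

end Random

/-- the moduli of `S_{α,C₁}` -/
noncomputable def TT (α C₁ : ℝ) (N : ℕ) : Finset ℕ := (range N).filter (fun k : ℕ =>
  ((k + 1 : ℕ) : ℝ) < (N : ℝ) ^ α / Real.log N ^ C₁ ∧ Squarefree (k + 1))

lemma S_eq (α C₁ : ℝ) (N : ℕ) : S α C₁ N =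
    ∑ k ∈ TT α C₁ N, (3 : ℝ) ^ nuD (k + 1) * (⨆ a : (ZMod (k + 1))ˣ, EMax N (k + 1) a) := by
  unfold S TT
  rw [sum_filter, sum_filter, ← Pool.Agent.Q93.EHC.sum_shift (fun d : ℕ =>
    if (d : ℝ) < (N : ℝ) ^ α / Real.log N ^ C₁ ∧ Squarefree d then (3 : ℝ) ^ nuD d * E N d else 0)]
  rfl

lemma TT_anti (α : ℝ) {C C' : ℝ} (h : C ≤ C') {N : ℕ} (hN : 3 ≤ N) : TT α C' N ⊆ TT α C N := by
  intro k hk
  unfold TT at hk ⊢
  rw [mem_filter] at hk ⊢
  refine ⟨hk.1, hk.2.1.trans_le ?_, hk.2.2⟩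
  have hl := Pool.Agent.Results.MP_188a10_nt.WeightedExceptional.log_ge_one hN
  have : 0 < Real.log (N : ℝ) := by linarith
  exact div_le_div_of_nonneg_left (by positivity) (by positivity)
    (Real.rpow_le_rpow_of_exponent_le hl h)

/-- the identity map -/
def idm (k : ℕ) : (ZMod (k + 1))ˣ → (ZMod (k + 1))ˣ := id

lemma adm_iff (α : ℝ) : Admissible α ↔ ∃ C₁ : ℝ, 0 < C₁ ∧
    Pool.Agent.Q93.WL.MaxB idm 3 (TT α C₁) 3 := by
  unfold Admissible Pool.Agent.Q93.WL.MaxB idm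
  simp only [S_eq, id]

lemma adm_of_generic (α : ℝ) (h : ¬ IsMeagre {c | AdmissibleAlong α c}) : Admissible α := by
  by_contra hn
  apply h
  rw [adm_iff] at hn
  push Not at hn
  have hsub : {c | AdmissibleAlong α c} ⊆
      ⋃ m : ℕ, {c | Pool.Agent.Q93.WL.SysB idm 3 (TT α ((m : ℝ) + 1)) 3 c} := by
    rintro c ⟨C₁, -, K, hK⟩
    obtain ⟨m, hm⟩ := exists_nat_ge C₁
    refine Set.mem_iUnion.2 ⟨m, K, fun N hN => le_trans ?_ (hK N hN)⟩
    exact sum_le_sum_of_subset_of_nonneg (TT_anti α (by linarith) hN) fun k _ _ =>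
      mul_nonneg (by positivity) (Pool.Agent.Q93.WL.EMax_nonneg _ _ _)
  refine IsMeagre.mono hsub (isMeagre_iUnion fun m => ?_)
  exact Pool.Agent.Q93.WL.meagre_of_not (by norm_num) (hn _ (by positivity))

lemma along_of_adm (α : ℝ) (h : Admissible α) (c : ∀ k : ℕ, (ZMod (k + 1))ˣ) :
    AdmissibleAlong α c := by
  rw [adm_iff] at h
  obtain ⟨C₁, hC₁, h⟩ := h
  exact ⟨C₁, hC₁, Pool.Agent.Q93.WL.sysB_of_maxB (by norm_num) h c⟩

/-- bounds at all large heights give the bounds at all levels below `1` -/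
lemma along_of_large (c : ∀ k : ℕ, (ZMod (k + 1))ˣ) {B N₀ U : ℕ}
    (H : ∀ x : ℕ, N₀ ≤ x → ∀ n : ℕ, (n : ℝ) * Real.log x ^ B ≤ x →
      ∑ k ∈ range n, (3 : ℝ) ^ nuD (k + 1) * EMax x (k + 1) (c k) ≤ x / Real.log x ^ U)
    (α : ℝ) (hα : α < 1) : ∃ K : ℝ, ∀ N : ℕ, 3 ≤ N →
      ∑ k ∈ range ⌊(N : ℝ) ^ α⌋₊, (3 : ℝ) ^ nuD (k + 1) * EMax N (k + 1) (c k) ≤
        K * (N / Real.log N ^ U) := by
  have ev := Pool.Agent.H398R2.BV.ev_log 1 B (1 - α) (by linarith)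
  obtain ⟨x₁, hx₁⟩ := Filter.eventually_atTop.1
    ((tendsto_natCast_atTop_atTop (R := ℝ)).eventually ev)
  obtain ⟨M, hM⟩ : ∃ M, M = N₀ + x₁ + 3 := ⟨_, rfl⟩
  have hterm : ∀ x : ℕ, 0 ≤ (∑ k ∈ range ⌊(x : ℝ) ^ α⌋₊, (3 : ℝ) ^ nuD (k + 1) *
      EMax x (k + 1) (c k)) / (x / Real.log x ^ U) := by
    intro x
    have h1 : 0 ≤ Real.log x := Real.log_natCast_nonneg x
    refine div_nonneg (sum_nonneg fun k _ => mul_nonneg (by positivity)
      (Pool.Agent.Q93.WL.EMax_nonneg _ _ _)) (by positivity)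
  refine ⟨(∑ x ∈ range M, (∑ k ∈ range ⌊(x : ℝ) ^ α⌋₊, (3 : ℝ) ^ nuD (k + 1) *
      EMax x (k + 1) (c k)) / (x / Real.log x ^ U)) + 1, fun x hx => ?_⟩
  have hC10 : 0 ≤ ∑ x ∈ range M, (∑ k ∈ range ⌊(x : ℝ) ^ α⌋₊, (3 : ℝ) ^ nuD (k + 1) *
      EMax x (k + 1) (c k)) / (x / Real.log x ^ U) := sum_nonneg fun x _ => hterm x
  have hx0 : (0 : ℝ) < x := by exact_mod_cast (by omega : 0 < x)
  have hlx := Pool.Agent.Results.MP_188a10_nt.WeightedExceptional.log_ge_one hx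
  have hlx0 : 0 < Real.log x := by linarith
  have hpos : 0 < (x : ℝ) / Real.log x ^ U := by positivity
  rcases lt_or_ge x M with hxM | hxM
  · have h1 := single_le_sum (f := fun x : ℕ => (∑ k ∈ range ⌊(x : ℝ) ^ α⌋₊,
        (3 : ℝ) ^ nuD (k + 1) * EMax x (k + 1) (c k)) / (x / Real.log x ^ U))
        (fun y _ => hterm y) (mem_range.2 hxM)
    rw [div_le_iff₀ hpos] at h1
    nlinarith
  · have h2 := hx₁ x (by omega)
    rw [one_mul] at h2
    have h3 : ((⌊(x : ℝ) ^ α⌋₊ : ℕ) : ℝ) * Real.log x ^ B ≤ x := by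
      calc ((⌊(x : ℝ) ^ α⌋₊ : ℕ) : ℝ) * Real.log x ^ B ≤ (x : ℝ) ^ α * (x : ℝ) ^ (1 - α) := by
            apply mul_le_mul (Nat.floor_le (by positivity)) h2 (by positivity) (by positivity)
        _ = x := by rw [← Real.rpow_add hx0]; simp
    have h4 := H x (by omega) _ h3
    nlinarith

lemma along_of_level (α : ℝ) (c : ∀ k : ℕ, (ZMod (k + 1))ˣ)
    (h : ∃ K : ℝ, ∀ N : ℕ, 3 ≤ N → ∑ k ∈ range ⌊(N : ℝ) ^ α⌋₊, (3 : ℝ) ^ nuD (k + 1) *
      EMax N (k + 1) (c k) ≤ K * (N / Real.log N ^ 3)) : AdmissibleAlong α c := by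
  obtain ⟨K, hK⟩ := h
  refine ⟨1, one_pos, K, fun N hN => le_trans ?_ (hK N hN)⟩
  refine sum_le_sum_of_subset_of_nonneg ?_ fun k _ _ =>
    mul_nonneg (by positivity) (Pool.Agent.Q93.WL.EMax_nonneg _ _ _)
  intro k hk
  rw [mem_filter] at hk
  rw [mem_range]
  have hl := Pool.Agent.Results.MP_188a10_nt.WeightedExceptional.log_ge_one hN
  have h1 : (N : ℝ) ^ α / Real.log N ^ (1 : ℝ) ≤ (N : ℝ) ^ α := by
    rw [Real.rpow_one]
    exact div_le_self (by positivity) hl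
  have h2 : k + 1 ≤ ⌊(N : ℝ) ^ α⌋₊ := Nat.le_floor (hk.2.1.le.trans h1)
  omega

theorem result :
    -- category
    (∀ α : ℝ, (Admissible α ↔ ∀ c, AdmissibleAlong α c) ∧
      (Admissible α ↔ ¬ IsMeagre {c | AdmissibleAlong α c})) ∧
    (Q1 ↔ ¬ IsMeagre {c | ∀ α : ℝ, 1 / 2 < α → α < 1 → AdmissibleAlong α c}) ∧
    (∀ R : ∀ k : ℕ, Set (ZMod (k + 1))ˣ, (∀ k, (R k).Nonempty) → ∀ (κ : ℝ), 1 ≤ κ →
      ∀ (T : ℕ → Finset ℕ) (U : ℕ),
      (MaxBound R κ T U ↔ ¬ IsMeagre {c | SysBound R κ T U c})) ∧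
    -- measure
    (∀ (Ω : Type) [MeasurableSpace Ω] (μ : Measure Ω) [IsProbabilityMeasure μ]
      (c : ∀ k : ℕ, Ω → (ZMod (k + 1))ˣ),
      (∀ (k : ℕ) (a : (ZMod (k + 1))ˣ), MeasurableSet {ω | c k ω = a}) →
      (Uniform μ c → (∀ᵐ ω ∂μ, ∀ α : ℝ, α < 1 → AdmissibleAlong α fun k => c k ω) ∧
        ∀ᵐ ω ∂μ, ∀ (U : ℕ) (α : ℝ), α < 1 → ∃ K : ℝ, ∀ N : ℕ, 3 ≤ N →
          ∑ k ∈ range ⌊(N : ℝ) ^ α⌋₊, (3 : ℝ) ^ nuD (k + 1) * EMax N (k + 1) (c k ω) ≤
            K * (N / Real.log N ^ U)) ∧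
      (∀ (β K : ℝ) (D : ℕ), 0 ≤ β → Collisions μ c β K D →
        ∀ (κ : ℝ), 1 ≤ κ → ∀ U : ℕ, ∃ B : ℕ, AlmostSure μ c κ β B U)) := by
  have hcat1 : ∀ α : ℝ, (∀ c, AdmissibleAlong α c) → Admissible α := fun α h =>
    adm_of_generic α (Pool.Agent.Q93.EHC.univ_not_meagre h)
  refine ⟨fun α => ⟨⟨along_of_adm α, hcat1 α⟩,
    ⟨fun h => Pool.Agent.Q93.EHC.univ_not_meagre (along_of_adm α h), adm_of_generic α⟩⟩,
    ⟨fun h => Pool.Agent.Q93.EHC.univ_not_meagre fun c α h1 h2 => along_of_adm α (h α h1 h2) c,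
    fun h α h1 h2 => adm_of_generic α fun hm => h (hm.mono fun c hc => hc α h1 h2)⟩, ?_, ?_⟩
  · intro R hR κ hκ T U
    haveI : ∀ k, Nonempty (R k) := fun k => (hR k).to_subtype
    exact Pool.Agent.Q93.WL.cat (Y := fun k => R k) (ι := fun k a => (a : (ZMod (k + 1))ˣ)) hκ
  · intro Ω _ μ _ c hc
    refine ⟨fun hu => ?_, fun β K D hβ hcoll κ hκ U => ?_⟩
    · have h : ∀ U : ℕ, ∃ B : ℕ, ∀ᵐ ω ∂μ, ∃ x₀ : ℕ, ∀ x : ℕ, x₀ ≤ x → ∀ n : ℕ,
          (n : ℝ) ^ (1 + (0 : ℝ)) * Real.log x ^ B ≤ x →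
            Pool.Agent.Q93.WL.SW c 3 x n ω ≤ x / Real.log x ^ U :=
        fun U => Pool.Agent.Q93.WL.as μ hc 3 (by norm_num) 0 9 2 le_rfl (by norm_num)
          (Pool.Agent.Q93.EHC.coll_unif μ hu) U
      choose B hB using h
      have hall : ∀ᵐ ω ∂μ, ∀ (U : ℕ) (α : ℝ), α < 1 → ∃ K : ℝ, ∀ N : ℕ, 3 ≤ N →
          ∑ k ∈ range ⌊(N : ℝ) ^ α⌋₊, (3 : ℝ) ^ nuD (k + 1) * EMax N (k + 1) (c k ω) ≤
            K * (N / Real.log N ^ U) := by
        filter_upwards [ae_all_iff.2 hB] with ω hω U α hα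
        obtain ⟨x₀, hx₀⟩ := hω U
        refine along_of_large (fun k => c k ω) (B := B U) (N₀ := x₀) (fun x hx n hn => ?_) α hα
        refine hx₀ x hx n ?_
        rw [add_zero, Real.rpow_one]
        exact hn
      refine ⟨?_, hall⟩
      filter_upwards [hall] with ω hω α hα
      exact along_of_level α _ (hω 3 α hα)
    · have hcoll' : ∀ n : ℕ, ∑ k ∈ range n, ∑ a : (ZMod (k + 1))ˣ,
          Pool.Agent.Q93.EHC.pr μ c k a ^ 2 ≤
          max K 0 * (n : ℝ) ^ β * Real.log (n + 2) ^ D := by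
        intro n
        refine (hcoll n).trans ?_
        have h1 : 0 ≤ Real.log ((n : ℝ) + 2) := Real.log_nonneg (by
          have : (0 : ℝ) ≤ n := Nat.cast_nonneg n
          linarith)
        have h2 : 0 ≤ (n : ℝ) ^ β * Real.log (n + 2) ^ D := by positivity
        rw [mul_assoc, mul_assoc]
        exact mul_le_mul_of_nonneg_right (le_max_left _ _) h2
      exact Pool.Agent.Q93.WL.as μ hc κ hκ β (max K 0) D hβ (le_max_right _ _) hcoll' U

end Pool.Agent.Results.MP_188a10_nt.FixedSystems
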