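import Pool.Agent.Q150.LV.E

/-!
# A weighted level of distribution for the primes `⌊α P(n)⌋`, uniformly in the polynomial `P`
-/

set_option autoImplicit false

namespace Pool.Agent.Results.MP_188a10_nt.LevelRealMultiples

open Finset MeasureTheory Filter Topology

/-- the real polynomial with the coefficients of `P` -/
noncomputable def real (P : Polynomial ℤ) : Polynomial ℝ := P.map (Int.castRingHom ℝ)

/-- the number of `n`, `1 ≤ n ≤ M`, such that `⌊α P(n)⌋` is a prime congruent to `l` modulo `d` -/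
noncomputable def count (α : ℝ) (P : Polynomial ℤ) (M d : ℕ) (l : ZMod d) : ℕ :=
  ((Icc 1 M).filter fun n : ℕ => (⌊α * (real P).eval (n : ℝ)⌋₊).Prime ∧
    ((⌊α * (real P).eval (n : ℝ)⌋₊ : ℕ) : ZMod d) = l).card

/-- the integral of `1 / log (α P(x))` over `0 ≤ x ≤ M` (values of `α P(x)` below `3` are replaced by `3`) -/
noncomputable def mainTerm (α : ℝ) (P : Polynomial ℤ) (M : ℕ) : ℝ :=
  ∫ x in (0 : ℝ)..(M : ℝ), 1 / Real.log (max (α * (real P).eval x) 3)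

/-- the polynomials of degree `q` with positive leading coefficient and coefficients at most `H` -/
def Bounded (q : ℕ) (H : ℝ) (P : Polynomial ℤ) : Prop :=
  P.natDegree = q ∧ 0 < P.leadingCoeff ∧ ∀ j, |((P.coeff j : ℤ) : ℝ)| ≤ H

/-- level of distribution `N ^ δ` for the primes `⌊α P(n)⌋`, `n ≤ N`, with the weights `κ ^ ν(d)`, with the maximum over
the residue classes `l d` and over the lengths `M d ≤ N`, saving every power of `log N`, uniformly in all polynomials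
`P` of degree `q` with coefficients at most `N ^ δ` -/
def HasLevel (q : ℕ) (δ α : ℝ) : Prop :=
  ∀ (κ : ℝ) (A : ℕ), 1 ≤ κ → ∀ᶠ N : ℕ in atTop, ∀ P : Polynomial ℤ, Bounded q ((N : ℝ) ^ δ) P →
    ∀ (l : (d : ℕ) → (ZMod d)ˣ) (M : ℕ → ℕ), (∀ d, M d ≤ N) →
    ∑ d ∈ Icc 1 ⌊(N : ℝ) ^ δ⌋₊, κ ^ d.primeFactors.card *
      |(count α P (M d) d (l d) : ℝ) - mainTerm α P (M d) / (Nat.totient d : ℝ)| ≤ N / Real.log N ^ A

open Pool.Agent.Q150.LV Pool.Agent.Q138.PS in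
theorem level_iff (q : ℕ) (δ α : ℝ) : HasLevel q δ α ↔ Lev q δ α := by
  classical
  have h : ∀ (P : Polynomial ℤ) (M d : ℕ) (l : ZMod d),
      ∑ n ∈ Ioc 0 M, ind (XP d l) ⌊α * (rl P).eval (n : ℝ)⌋₊ = (count α P M d l : ℝ) := by
    intro P M d l
    rw [ind_sum (XP d l) (Ioc 0 M) (fun n => ⌊α * (rl P).eval (n : ℝ)⌋₊)]
    unfold count XP rl real
    have e : Ioc 0 M = Icc 1 M := by
      ext m
      simp [Nat.succ_le_iff]
    rw [e]
    congr!
  unfold HasLevel Lev Bounded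
  simp only [h, and_imp]
  rfl

/-- **Weighted level of distribution for the primes `⌊α P(n)⌋`.** -/
theorem result (q : ℕ) (hq : 2 ≤ q) :
    (∀ δ : ℝ, 0 < δ → (2 * q + 18) * δ < 1 / ((q : ℝ) * 2 ^ (q - 1)) →
      dimH {α : ℝ | 0 < α ∧ ¬ HasLevel q δ α} ≤
        ENNReal.ofReal ((q + (2 * q + 14) * δ) / (q + 1 / ((q : ℝ) * 2 ^ (q - 1)) - 4 * δ))) ∧
    dimH {α : ℝ | 0 < α ∧ ∀ δ : ℝ, 0 < δ → ¬ HasLevel q δ α} ≤
      ENNReal.ofReal (q / (q + 1 / ((q : ℝ) * 2 ^ (q - 1)))) := by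
  have hq2 : (2 : ℝ) ≤ q := by exact_mod_cast hq
  have hkp := Pool.Agent.Q138.PS.kp_pos hq
  have hkp4 := Pool.Agent.Q138.PS.kp_le hq
  have hkpd : Pool.Agent.Q138.PS.kp q = 1 / ((q : ℝ) * 2 ^ (q - 1)) := rfl
  rw [← hkpd]
  set κ := Pool.Agent.Q138.PS.kp q with hκ
  have key : ∀ δ : ℝ, 0 ≤ δ → δ < 1 / 8 → ∀ η : ℝ, δ < η → η < 1 / 4 → ∀ S : Set ℝ,
      (∀ α ∈ S, 0 < α ∧ ∃ δ', 0 ≤ δ' ∧ δ' < η ∧ ¬ HasLevel q δ' α) →
      dimH S ≤ ENNReal.ofReal ((q + (2 * q + 14) * η) / (q + κ - 4 * η)) := by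
    intro δ hδ hδ1 η hη hη1 S hS
    refine (dimH_mono ?_).trans (Pool.Agent.Q150.LV.good_dim q hq (by linarith : 0 < η) hη1.le)
    intro α hα
    obtain ⟨h1, δ', h2, h3, h4⟩ := hS α hα
    refine ⟨h1, fun hG => h4 ?_⟩
    rw [level_iff]
    exact Pool.Agent.Q150.LV.lev_of_good hq h2 h3 hη1.le h1 hG
  have hcont : ∀ δ : ℝ, 0 ≤ δ → δ < 1 / 8 →
      ContinuousAt (fun t : ℝ => ((q : ℝ) + (2 * q + 14) * (δ + t)) / (q + κ - 4 * (δ + t))) 0 := by
    intro δ hδ hδ1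
    apply ContinuousAt.div
    · fun_prop
    · fun_prop
    · simp only [add_zero]
      linarith
  constructor
  · intro δ hδ hδ2
    have hδ1 : δ < 1 / 8 := by nlinarith
    have h1 := Pool.Agent.Q138.PS.dim_lim (S := {α : ℝ | 0 < α ∧ ¬ HasLevel q δ α}) (η0 := 1 / 8) (by norm_num)
      (hcont δ hδ.le hδ1) (fun t ht ht1 => key δ hδ.le hδ1 (δ + t) (by linarith) (by linarith) _ (by
        rintro α ⟨hα, hn⟩
        exact ⟨hα, δ, hδ.le, by linarith, hn⟩))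
    simpa using h1
  · have h1 := Pool.Agent.Q138.PS.dim_lim (S := {α : ℝ | 0 < α ∧ ∀ δ : ℝ, 0 < δ → ¬ HasLevel q δ α}) (η0 := 1 / 8)
      (by norm_num) (hcont 0 le_rfl (by norm_num)) (fun t ht ht1 => key 0 le_rfl (by norm_num) (0 + t) (by linarith)
        (by linarith) _ (by
        rintro α ⟨hα, hn⟩
        exact ⟨hα, t / 2, by linarith, by linarith, hn (t / 2) (by linarith)⟩))
    simpa using h1

end Pool.Agent.Results.MP_188a10_nt.LevelRealMultiples
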