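import Pool.Agent.Q259.AS.LevM

/-!
# Averages over residues distributed according to self-similar measures: absolute values and all levels

Definitions used (`Pool.Agent.Q259.AS`): `SelfSim μ`: `μ` is a self-similar measure `μ = ∑ p i * (f i)_* μ` of
finitely many maps `f i x = ρ i * x + t i` with `0 < |ρ i| < 1` and `p i > 0`, not all with the same fixed point (that
is, `μ` is not a point mass; overlaps are allowed and the ratios are arbitrary); `FourLp μ`: the Fourier transform of
`μ` belongs to `L^q` for some `q < ∞` (for instance because it is `O(|t| ^ (-δ))` for some `δ > 0`).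
From Mathlib: `ArithmeticFunction.vonMangoldt`: the function `Λ`; `Nat.totient`: Euler's function.
-/

set_option autoImplicit false

namespace Pool.Agent.Results.MP_188a10_nt.SelfSimilarAverages

open MeasureTheory Filter Finset Pool.Agent.Q259.AS

/-- `E(z; m, n) = ψ(z; m, n) - z / φ(m)`, where `ψ(z; m, n)` is the sum of `Λ(u)` over the `u ≤ z` with
`u ≡ n (mod m)`. -/
noncomputable def E (z m n : ℕ) : ℝ :=
  ∑ u ∈ (Icc 1 z).filter (fun u : ℕ => u ≡ n [MOD m]), ArithmeticFunction.vonMangoldt u - (z : ℝ) / Nat.totient m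

/-- `τ(m)`: the number of the divisors of `m`. -/
noncomputable def τ (m : ℕ) : ℝ := m.divisors.card

/-- The level `a / exp ((log log a) ^ 3)`, which is `a ^ (1 - o(1))`. -/
noncomputable def level (a : ℝ) : ℝ := a / Real.exp (Real.log (Real.log a) ^ 3)

open Classical in
/-- The mean with respect to `μ` of `w(x) E(z; m, n)`, where `n` is the integer part of `a x + y`, over the `x` for
which `n` is positive and coprime to `m`. -/
noncomputable def mean (μ : Measure ℝ) (a y : ℝ) (w : ℝ → ℝ) (z m : ℕ) : ℝ :=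
  ∫ x, (if 0 < ⌊a * x + y⌋ ∧ ⌊a * x + y⌋.toNat.Coprime m then w x * E z m ⌊a * x + y⌋.toNat else 0) ∂μ

/-- Let `μ` be a probability measure on the line which is self-similar and not a point mass, or which has a Fourier
transform which belongs to some `L^q`, `q < ∞`. Let `B`, `T` and `U` be fixed. For every large real number `a`, all
`|y| ≤ B a`, all measurable functions `|w| ≤ log ^ T a` vanishing outside `[-B, B]` and all functions
`ζ(m) ≤ B a`, the sum over ALL the `m ≤ a / exp ((log log a) ^ 3)` of `τ(m) ^ T` times the ABSOLUTE VALUE of the mean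
of `w(x) E(ζ(m); m, ⌊a x + y⌋)` with respect to `μ`, over the `x` for which `⌊a x + y⌋` is positive and coprime to
`m`, is at most `a / log ^ U a`. -/
theorem result (B T U : ℕ) (μ : Measure ℝ) [IsProbabilityMeasure μ] (hμ : SelfSim μ ∨ FourLp μ) :
    ∃ a₀ : ℝ, ∀ a : ℝ, a₀ ≤ a → ∀ y : ℝ, |y| ≤ B * a → ∀ w : ℝ → ℝ, Measurable w →
    (∀ x, |w x| ≤ Real.log a ^ T) → (∀ x, (B : ℝ) < |x| → w x = 0) → ∀ ζ : ℕ → ℕ, (∀ m, (ζ m : ℝ) ≤ B * a) →
    ∑ m ∈ Icc 1 ⌊level a⌋₊, τ m ^ T * |mean μ a y w (ζ m) m| ≤ a / Real.log a ^ U := by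
  classical
  obtain ⟨a₀, h0⟩ := mean_levels (B + 1) T U (by omega) μ hμ
  refine ⟨max a₀ 1, fun a ha y hy w hw hw1 hw2 ζ hζ => ?_⟩
  have ha1 : 0 ≤ a := by linarith [(le_max_right a₀ 1).trans ha]
  have hB : (B : ℝ) * a ≤ ((B + 1 : ℕ) : ℝ) * a := mul_le_mul_of_nonneg_right (by push_cast; linarith) ha1
  refine le_trans (le_of_eq ?_) (h0 a ((le_max_left _ _).trans ha) y (hy.trans hB) w hw hw1 (fun x hx => hw2 x (by
    push_cast at hx
    linarith)) ζ (fun m => (hζ m).trans hB))
  apply sum_congr rfl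
  intro m _
  unfold mean intg Ec
  congr 2
  apply integral_congr_ae
  apply Filter.Eventually.of_forall
  intro x
  simp only
  by_cases h1 : 0 < ⌊a * x + y⌋
  · by_cases h2 : ⌊a * x + y⌋.toNat.Coprime m
    · rw [if_pos ⟨h1, h2⟩, if_pos h1, if_pos h2]
      rfl
    · rw [if_neg (fun h => h2 h.2), if_pos h1, if_neg h2, mul_zero]
  · rw [if_neg (fun h => h1 h.1), if_neg h1]

end Pool.Agent.Results.MP_188a10_nt.SelfSimilarAverages
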